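import Pool.Agent.H11.Str1

namespace H11.Str
open Finset Filter Topology

open Classical in
/-- removing at most `ε |S|` points never leaves a stretched subconfiguration -/
def Far (ε : ℝ) (S : Finset (ℝ × ℝ)) : Prop :=
  ∀ R ⊆ S, (R.card : ℝ) ≤ ε * S.card → ¬ Stretched (S \ R)

open Classical in
/-- number of `k`-point subsets of `S` that are stretched -/
noncomputable def accepted (S : Finset (ℝ × ℝ)) (k : ℕ) : ℕ :=
  ((S.powersetCard k).filter Stretched).card

open Classical in
lemma weight {α : Type*} [DecidableEq α] (P : Finset α → Prop) (hP : ∀ B, P B → B.card ≤ 6)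
    (x : ℝ) (hx : 0 < x) (M : ℕ) : ∀ S : Finset α,
    (∀ R ⊆ S, R.card < 6 * M → ∃ B ⊆ S \ R, P B) →
    ∑ K ∈ S.powerset.filter (fun K => ∀ B ⊆ K, ¬ P B), x^K.card
      ≤ (1 + x)^S.card * (1 - (x / (1 + x))^6)^M := by
  have full : ∀ S : Finset α, ∑ K ∈ S.powerset, x^K.card = (1 + x)^S.card := by
    intro S
    have := Finset.sum_pow_mul_eq_add_pow x 1 S
    simpa [add_comm] using this
  have hρ0 : 0 < x / (1 + x) := by positivity
  have hρ1 : x / (1 + x) ≤ 1 := by rw [div_le_one (by positivity)]; linarith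
  have hθ : 0 ≤ 1 - (x / (1 + x))^6 := by have := pow_le_one₀ (n := 6) hρ0.le hρ1; linarith
  induction M with
  | zero =>
    intro S _
    rw [pow_zero, mul_one, ← full]
    exact sum_le_sum_of_subset_of_nonneg (filter_subset _ _) fun _ _ _ => by positivity
  | succ M ih =>
    intro S hS
    obtain ⟨B0, hB0, hP0⟩ := hS ∅ (empty_subset _) (by simp)
    rw [sdiff_empty] at hB0
    have h1 := ih (S \ B0) (fun R hR hc => by
      obtain ⟨B, hB, hPB⟩ := hS (R ∪ B0) (union_subset (hR.trans sdiff_subset) hB0)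
        (by have := card_union_le R B0; have := hP B0 hP0; omega)
      refine ⟨B, hB.trans fun z hz => ?_, hPB⟩
      have hz' := mem_sdiff.1 hz
      exact mem_sdiff.2 ⟨mem_sdiff.2 ⟨hz'.1, fun h => hz'.2 (mem_union_right _ h)⟩,
        fun h => hz'.2 (mem_union_left _ h)⟩)
    have h2 : ∑ K ∈ B0.powerset.erase B0, x^K.card
        ≤ (1 + x)^B0.card * (1 - (x / (1 + x))^6) := by
      have e := sum_erase_eq_sub (f := fun K : Finset α => x^K.card) (mem_powerset_self B0)
      rw [e, full]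
      have a1 : (x / (1 + x))^6 ≤ (x / (1 + x))^B0.card :=
        pow_le_pow_of_le_one hρ0.le hρ1 (hP B0 hP0)
      have a2 : (1 + x)^B0.card * (x / (1 + x))^B0.card = x^B0.card := by
        rw [← mul_pow]; congr 1; field_simp
      have a3 := mul_le_mul_of_nonneg_left a1 (show 0 ≤ (1 + x)^B0.card by positivity)
      linarith
    set A := S.powerset.filter (fun K => ∀ B ⊆ K, ¬ P B) with hA
    set φ : Finset α → Finset α × Finset α := fun K => (K ∩ B0, K \ B0) with hφ
    have inj : Set.InjOn φ A := by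
      intro K _ K' _ e
      have e1 : K ∩ B0 = K' ∩ B0 := congrArg Prod.fst e
      have e2 : K \ B0 = K' \ B0 := congrArg Prod.snd e
      rw [← sdiff_union_inter K B0, ← sdiff_union_inter K' B0, e1, e2]
    calc ∑ K ∈ A, x^K.card = ∑ K ∈ A, x^(φ K).1.card * x^(φ K).2.card := by
          refine sum_congr rfl fun K _ => ?_
          rw [← pow_add]; congr 1
          exact (card_inter_add_card_sdiff K B0).symm
      _ = ∑ y ∈ A.image φ, x^y.1.card * x^y.2.card := (sum_image (f := fun y : Finset α × Finset α =>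
            x^y.1.card * x^y.2.card) inj).symm
      _ ≤ ∑ y ∈ (B0.powerset.erase B0) ×ˢ ((S \ B0).powerset.filter (fun K => ∀ B ⊆ K, ¬ P B)),
            x^y.1.card * x^y.2.card := by
          refine sum_le_sum_of_subset_of_nonneg ?_ fun _ _ _ => by positivity
          intro y hy
          obtain ⟨K, hK, rfl⟩ := mem_image.1 hy
          simp only [hA, mem_filter, mem_powerset] at hK
          simp only [hφ, mem_product, mem_erase, mem_powerset, mem_filter]
          refine ⟨⟨fun e => hK.2 B0 (inter_eq_right.1 e) hP0, inter_subset_right⟩,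
            sdiff_subset_sdiff hK.1 Subset.rfl, fun B hB => hK.2 B (hB.trans sdiff_subset)⟩
      _ = (∑ K ∈ B0.powerset.erase B0, x^K.card) *
            ∑ K ∈ (S \ B0).powerset.filter (fun K => ∀ B ⊆ K, ¬ P B), x^K.card := by
          rw [sum_product, sum_mul_sum]
      _ ≤ ((1 + x)^B0.card * (1 - (x / (1 + x))^6)) *
            ((1 + x)^(S \ B0).card * (1 - (x / (1 + x))^6)^M) :=
          mul_le_mul h2 h1 (sum_nonneg fun _ _ => by positivity) (by positivity)
      _ = _ := by
          rw [← card_sdiff_add_card_eq_card hB0, pow_add, pow_succ _ M]; ring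

lemma mode (n : ℕ) (x : ℝ) (hx : 0 < x) (h1 : 1 < n * x) :
    ∃ k, 0 < k ∧ k ≤ n ∧ (k : ℝ) ≤ n * x ∧ (1 + x)^n ≤ (n + 1) * (n.choose k * x^k) := by
  obtain ⟨k, hk, hmax⟩ := (range (n+1)).exists_max_image (fun k => (n.choose k : ℝ) * x^k)
    ⟨0, by simp⟩
  have hkn : k ≤ n := Nat.lt_succ_iff.1 (mem_range.1 hk)
  have hn : 0 < n := by
    rcases Nat.eq_zero_or_pos n with rfl | h
    · simp at h1; linarith
    · exact h
  have hk0 : 0 < k := by
    rcases Nat.eq_zero_or_pos k with rfl | h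
    · have := hmax 1 (mem_range.2 (by omega)); simp at this; linarith
    · exact h
  refine ⟨k, hk0, hkn, ?_, ?_⟩
  · obtain ⟨j, rfl⟩ : ∃ j, k = j + 1 := ⟨k - 1, by omega⟩
    have a := hmax j (mem_range.2 (by omega))
    have e : (n.choose (j+1) : ℝ) * (j+1) = n.choose j * ((n - j : ℕ) : ℝ) := by
      exact_mod_cast Nat.choose_succ_right_eq n j
    have c0 : (0:ℝ) < n.choose j := by exact_mod_cast Nat.choose_pos (by omega)
    have c1 : ((n - j : ℕ) : ℝ) ≤ n := by exact_mod_cast Nat.sub_le n j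
    have xp : 0 < x^j := pow_pos hx j
    have b : (n.choose j : ℝ) * x^j * (j+1) ≤ n.choose j * x^j * (((n - j : ℕ) : ℝ) * x) := by
      have := mul_le_mul_of_nonneg_right a (show (0:ℝ) ≤ j + 1 by positivity)
      calc _ ≤ _ := this
        _ = (n.choose (j+1) : ℝ) * (j+1) * x^j * x := by rw [pow_succ]; ring
        _ = _ := by rw [e]; ring
    have b2 := le_of_mul_le_mul_left b (mul_pos c0 xp)
    push_cast
    nlinarith
  · rw [add_comm 1 x, add_pow]
    calc _ ≤ ∑ _j ∈ range (n+1), (n.choose k : ℝ) * x^k := sum_le_sum fun j hj => by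
          have := hmax j hj; simpa [mul_comm] using this
      _ = _ := by simp

lemma count (ε x : ℝ) (hε : 0 < ε) (hx : 0 < x) (S : Finset (ℝ × ℝ)) (hS : Far ε S) (k : ℕ)
    (hk : 0 < k) : (accepted S k : ℝ) * x^k
      ≤ S.card * ((1 + x)^S.card * (1 - (x / (1 + x))^6)^(⌊ε * S.card / 6⌋₊)) := by
  classical
  have w : ∀ q ∈ S, ∑ K ∈ S.powerset.filter (fun K => ∀ B ⊆ K, ¬ Bad q B), x^K.card
      ≤ (1 + x)^S.card * (1 - (x / (1 + x))^6)^(⌊ε * S.card / 6⌋₊) := by
    intro q hq
    have := weight (Bad q) (fun B h => h.2.1) x hx (⌊ε * S.card / 6⌋₊) S (fun R hR hc => by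
      have a1 : ((R.erase q).card : ℝ) ≤ ε * S.card := by
        have b1 : ((R.erase q).card : ℝ) ≤ (6 * ⌊ε * S.card / 6⌋₊ : ℕ) := by
          exact_mod_cast card_erase_le.trans hc.le
        have b2 := Nat.floor_le (show 0 ≤ ε * S.card / 6 by positivity)
        push_cast at b1; linarith
      have a2 := hS (R.erase q) ((erase_subset _ _).trans hR) a1
      by_contra hcon
      push Not at hcon
      apply a2
      refine suff (q := q) (by simp [hq]) fun B hB hbad => hcon B (fun z hz => ?_) hbad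
      have := mem_sdiff.1 (hB hz)
      exact mem_sdiff.2 ⟨this.1, fun h => this.2 (mem_erase.2 ⟨fun e => hbad.1 (e ▸ hz), h⟩)⟩)
    convert this
  calc (accepted S k : ℝ) * x^k = ∑ K ∈ (S.powersetCard k).filter Stretched, x^K.card := by
        rw [sum_congr rfl (g := fun _ => x^k) fun K hK => by
          rw [(mem_powersetCard.1 (mem_filter.1 hK).1).2]]
        rw [sum_const, nsmul_eq_mul]; unfold accepted; congr
    _ ≤ ∑ K ∈ (S.powersetCard k).filter Stretched, ∑ q ∈ S,
          if ∀ B ⊆ K, ¬ Bad q B then x^K.card else 0 := by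
        refine sum_le_sum fun K hK => ?_
        obtain ⟨h1, h2⟩ := mem_filter.1 hK
        obtain ⟨h3, h4⟩ := mem_powersetCard.1 h1
        obtain ⟨q, hq, hqb⟩ := nec h2 (card_pos.1 (h4 ▸ hk))
        refine le_trans ?_ (single_le_sum (f := fun q => if ∀ B ⊆ K, ¬ Bad q B then x^K.card else 0)
          (fun q _ => by split_ifs <;> positivity) (h3 hq))
        simp only [if_pos hqb, le_refl]
    _ ≤ ∑ K ∈ S.powerset, ∑ q ∈ S, if ∀ B ⊆ K, ¬ Bad q B then x^K.card else 0 :=
        sum_le_sum_of_subset_of_nonneg (fun K hK => mem_powerset.2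
          (mem_powersetCard.1 (mem_filter.1 hK).1).1) fun K _ _ =>
          sum_nonneg fun q _ => by split_ifs <;> positivity
    _ = ∑ q ∈ S, ∑ K ∈ S.powerset.filter (fun K => ∀ B ⊆ K, ¬ Bad q B), x^K.card := by
        rw [sum_comm]; simp only [sum_filter]
    _ ≤ _ := by rw [← nsmul_eq_mul]; exact sum_le_card_nsmul _ _ _ w

lemma eventually_small (ε p δ : ℝ) (hε : 0 < ε) (hp : 0 < p) (hδ : 0 < δ) :
    ∀ᶠ n : ℕ in atTop, ∃ k : ℕ, (k : ℝ) ≤ n * δ ∧ ∀ S : Finset (ℝ × ℝ), S.card = n → Far ε S →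
      (accepted S k : ℝ) ≤ p * n.choose k := by
  set θ : ℝ := 1 - (δ / (1 + δ))^6 with hθ
  have hρ0 : 0 < δ / (1 + δ) := by positivity
  have hρ1 : δ / (1 + δ) < 1 := by rw [div_lt_one (by positivity)]; linarith
  have hθ0 : 0 < θ := by have := pow_lt_one₀ (n := 6) hρ0.le hρ1 (by norm_num); linarith
  have hθ1 : θ < 1 := by have := pow_pos hρ0 6; linarith
  have t1 := (tendsto_pow_const_mul_const_pow_of_abs_lt_one 2
    (show |θ| < 1 by rw [abs_of_pos hθ0]; exact hθ1)).comp (tendsto_add_atTop_nat 1)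
  have t2 : Tendsto (fun n : ℕ => ⌊ε * n / 6⌋₊) atTop atTop :=
    tendsto_nat_floor_atTop.comp
      ((tendsto_natCast_atTop_atTop.const_mul_atTop hε).atTop_div_const (by norm_num))
  have t3 := (t1.comp t2).eventually (gt_mem_nhds (show 0 < p * θ * ε^2 / 72 by positivity))
  have t4 := (tendsto_natCast_atTop_atTop.atTop_mul_const hδ).eventually (eventually_gt_atTop 1)
  filter_upwards [t3, t4, eventually_ge_atTop 1] with n h3 h4 h5
  obtain ⟨k, hk0, -, hk1, hk2⟩ := mode n δ hδ h4
  refine ⟨k, hk1, fun S hS hF => ?_⟩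
  have c := count ε δ hε hδ S hF k hk0
  rw [hS, ← hθ] at c
  set M := ⌊ε * n / 6⌋₊ with hM
  simp only [Function.comp] at h3
  rw [← hM] at h3
  push_cast at h3
  have hn1 : (1:ℝ) ≤ n := by exact_mod_cast h5
  have f1 : ε * n / 6 < M + 1 := Nat.lt_floor_add_one _
  have f2 : (ε * n)^2 ≤ (6 * (M + 1))^2 := pow_le_pow_left₀ (by positivity) (by linarith) 2
  have θM : 0 < θ^M := pow_pos hθ0 M
  have f3 : (n:ℝ) * (n + 1) * θ^M ≤ p := by
    have g1 : ((M:ℝ) + 1)^2 * θ^M ≤ p * ε^2 / 72 := by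
      rw [pow_succ θ M] at h3
      have : ((M:ℝ) + 1)^2 * θ^M * θ ≤ p * ε^2 / 72 * θ := by linarith
      exact le_of_mul_le_mul_right this hθ0
    have g2 : (n:ℝ) * (n + 1) ≤ 2 * n^2 := by nlinarith
    have g3 : ε^2 * (2 * n^2 * θ^M) ≤ ε^2 * p := by nlinarith
    have g4 := le_of_mul_le_mul_left g3 (by positivity)
    nlinarith
  have xk : 0 < δ^k := pow_pos hδ k
  have : (accepted S k : ℝ) * δ^k ≤ p * n.choose k * δ^k := by
    calc _ ≤ _ := c
      _ ≤ n * ((n + 1) * (n.choose k * δ^k) * θ^M) := by gcongr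
      _ = (n * (n + 1) * θ^M) * (n.choose k * δ^k) := by ring
      _ ≤ p * (n.choose k * δ^k) := by gcongr
      _ = _ := by ring
  exact le_of_mul_le_mul_right this xk

end H11.Str

open H11.Str Filter Asymptotics in
theorem Pool.Agent.Results.MP_097bbc_lc.Sublinear.result (ε p : ℝ) (hε : 0 < ε) (_hε1 : ε < 1)
    (hp : 0 < p) (_hp1 : p < 1) :
    ∃ k : ℕ → ℕ, (∀ n, k n ≤ n) ∧ (fun n => (k n : ℝ)) =o[atTop] (fun n => (n : ℝ)) ∧
      ∀ S : Finset (ℝ × ℝ), Far ε S →
        (accepted S (k S.card) : ℝ) ≤ p * (S.card.choose (k S.card)) := by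
  classical
  have base : ∀ n : ℕ, ∀ S : Finset (ℝ × ℝ), S.card = n → Far ε S →
      (accepted S n : ℝ) ≤ p * n.choose n := by
    intro n S hS hF
    have h1 := hF ∅ (Finset.empty_subset _) (by simp; positivity)
    rw [Finset.sdiff_empty] at h1
    have : accepted S n = 0 := by
      unfold accepted
      rw [← hS, Finset.powersetCard_self, Finset.card_eq_zero, Finset.filter_eq_empty_iff]
      simpa using h1
    rw [this]; simp [hp.le]
  have ex : ∀ n : ℕ, ∃ k : ℕ, ∀ S : Finset (ℝ × ℝ), S.card = n → Far ε S →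
      (accepted S k : ℝ) ≤ p * n.choose k := fun n => ⟨n, base n⟩
  refine ⟨fun n => Nat.find (ex n), fun n => Nat.find_min' (ex n) (base n), ?_,
    fun S hF => Nat.find_spec (ex S.card) S rfl hF⟩
  rw [isLittleO_iff]
  intro δ hδ
  filter_upwards [eventually_small ε p δ hε hp hδ] with n ⟨k, hk, hk2⟩
  have : (Nat.find (ex n) : ℝ) ≤ k := by exact_mod_cast Nat.find_min' (ex n) hk2
  simp only [Real.norm_natCast]
  linarith
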